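import Mathlib
import Pool.Agent.H348R6.GV3

/-!
# Fine normal ultrafilters over `P_κ(κ⁺)` fail the Galvin property

Let `U` be a fine normal ultrafilter over `P_κ(κ⁺)`, `κ` uncountable. Then `Gal(U, κ, κ⁺⁺)` fails,
and if `2 ^ κ = κ⁺` or `2 ^ κ⁺ = κ⁺⁺`, then `Gal(U, κ, 2 ^ κ⁺)` fails. So under GCH no fine normal
ultrafilter over `P_κ(κ⁺)` satisfies `Gal(U, κ, 2 ^ κ⁺)`.

Idea: take an eventually different family of functions `f i : κ⁺ → κ⁺` and let `A i` be the set of
all `x` closed under `f i`. Normality gives `A i ∈ U`. If `x` is closed under `κ` many of these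
functions and contains a large ordinal, then `x` has `κ` elements.
-/

set_option autoImplicit false

namespace Pool.Agent.Results.MP_a3089e_lc.NeverGalvin

open Cardinal Set

universe u

/-- `U` is a fine normal ultrafilter over `P_κ(X)`, the set of all `x ⊆ X` with `|x| < κ`. -/
structure FineNormal (κ : Cardinal.{u}) (X : Type u)
    (U : Ultrafilter {x : Set X // #x < κ}) : Prop where
  complete : ∀ S : Set (Set {x : Set X // #x < κ}), #S < κ → (∀ s ∈ S, s ∈ U) → ⋂₀ S ∈ U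
  fine : ∀ a : X, {x : {x : Set X // #x < κ} | a ∈ x.1} ∈ U
  normal : ∀ f : {x : Set X // #x < κ} → X, {x : {x : Set X // #x < κ} | f x ∈ x.1} ∈ U →
    ∃ a : X, {x : {x : Set X // #x < κ} | f x = a} ∈ U

/-- `Gal(F, μ, θ)`: every family of `θ` many distinct members of `F` has a subfamily of `μ` many
members whose intersection is in `F`. -/
def Gal {P : Type u} (F : Ultrafilter P) (μ θ : Cardinal.{u}) : Prop :=
  ∀ S : Set (Set P), (∀ s ∈ S, s ∈ F) → #S = θ → ∃ T ⊆ S, #T = μ ∧ ⋂₀ T ∈ F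

theorem result (κ : Cardinal.{u}) (X : Type u) (hκ : ℵ₀ < κ) (hX : #X = Order.succ κ)
    (U : Ultrafilter {x : Set X // #x < κ}) (hU : FineNormal κ X U) :
    ¬ Gal U κ (Order.succ (Order.succ κ)) ∧
      ((2 : Cardinal.{u}) ^ κ = Order.succ κ ∨
          (2 : Cardinal.{u}) ^ (Order.succ κ) = Order.succ (Order.succ κ) →
        ¬ Gal U κ ((2 : Cardinal.{u}) ^ (Order.succ κ))) := by
  have h1 : ¬ Gal U κ (Order.succ (Order.succ κ)) := by
    intro hG
    obtain ⟨h, hh⟩ := Pool.Agent.H348R6.GV.family_scale hκ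
    obtain ⟨S, hS1, hS2, hS3⟩ := Pool.Agent.H348R6.GV.not_gal_of_family hκ hX U hU.fine hU.normal
      (by rw [Cardinal.mk_toType, card_ord]
          exact (Order.lt_succ κ).trans (Order.lt_succ _)) h hh
    obtain ⟨T, hT1, hT2, hT3⟩ := hG S hS1 (by rw [hS2, Cardinal.mk_toType, card_ord])
    exact hS3 T hT1 hT2 hT3
  refine ⟨h1, ?_⟩
  rintro (hgch | hgch)
  · intro hG
    obtain ⟨h, hh⟩ := Pool.Agent.H348R6.GV.family_sets hκ hgch
    have hcard : #(Set (Order.succ κ).ord.ToType) = (2 : Cardinal.{u}) ^ (Order.succ κ) := by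
      rw [mk_set, Cardinal.mk_toType, card_ord]
    obtain ⟨S, hS1, hS2, hS3⟩ := Pool.Agent.H348R6.GV.not_gal_of_family hκ hX U hU.fine hU.normal
      (by rw [hcard]; exact (Order.lt_succ κ).trans (cantor _)) h hh
    obtain ⟨T, hT1, hT2, hT3⟩ := hG S hS1 (by rw [hS2, hcard])
    exact hS3 T hT1 hT2 hT3
  · rw [hgch]; exact h1

end Pool.Agent.Results.MP_a3089e_lc.NeverGalvin
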